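import Pool.Agent.MP_cce4c9_lc.H7.Spec

/-! Riemann-Roch spaces: finiteness, one step, constants; infinitely many places. -/

set_option autoImplicit false

open WithZero Finsupp Module Polynomial
open scoped IntermediateField

namespace Pool.Agent.MP_cce4c9_lc.H51

open Pool.Agent.MP_cce4c9_lc.H87 Pool.Agent.MP_cce4c9_lc.H7

variable {k K : Type} [Field k] [Field K] [Algebra k K]

theorem mem_range_of_integral [IsAlgClosed k] {h : K} (hh : IsIntegral k h) :
    h ∈ Set.range (algebraMap k K) :=
  minpoly.mem_range_of_degree_eq_one k h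
    (IsAlgClosed.degree_eq_one_of_irreducible k (minpoly.irreducible hh))

/-- A function field is algebraic over the ring generated by a transcendental element. -/
theorem alg_of_transc (hK : IsFF k K) {h : K} (hh : Transcendental k h) :
    Algebra.IsAlgebraic (Algebra.adjoin k {h}) K := by
  obtain ⟨t, ht, hfd⟩ := hK
  have h1 : IsTranscendenceBasis k (fun _ : Unit => t) := by
    refine isTranscendenceBasis_iff_algebraicIndependent_isAlgebraic.2
      ⟨algebraicIndependent_unique_type_iff.2 ht, ?_⟩
    rw [Set.range_const, ← IntermediateField.isAlgebraic_adjoin_iff_top]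
    infer_instance
  have h2 : IsTranscendenceBasis k (fun _ : Unit => h) :=
    (algebraicIndependent_unique_type_iff.2 hh).isTranscendenceBasis_of_trdeg_le_of_finite
      h1.cardinalMk_eq_trdeg.ge
  have h3 := h2.isAlgebraic
  rwa [Set.range_const] at h3

/-- The valuation ring of a place as a subalgebra. -/
def ints (v : Place k K) : Subalgebra k K where
  carrier := {x | v.val x ≤ 1}
  mul_mem' := fun {a b} ha hb => by
    show v.val (a * b) ≤ 1
    rw [map_mul]; exact mul_le_one' ha hb
  add_mem' := fun {a b} ha hb => (v.val.map_add a b).trans (max_le ha hb)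
  algebraMap_mem' := v.const_le

/-- The residue field of a place is the field of constants. -/
theorem res [IsAlgClosed k] (hK : IsFF k K) (v : Place k K) : v.Res := by
  intro h hh
  by_contra hne
  have h1 : ∀ c : k, v.val (h - algebraMap k K c) = 1 := fun c =>
    le_antisymm ((v.val.map_sub _ _).trans (max_le hh (v.const_le c)))
      (not_lt.1 fun hc => hne ⟨c, hc⟩)
  have ht : Transcendental k h := fun ha => by
    obtain ⟨c, rfl⟩ := mem_range_of_integral ha.isIntegral
    simpa using h1 c
  have h2 : ∀ p : k[X], p ≠ 0 → v.val (aeval h p) = 1 := fun p hp => by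
    rw [(IsAlgClosed.splits p).eq_prod_roots, map_mul, map_mul, aeval_C,
      v.triv _ (leadingCoeff_ne_zero.2 hp), one_mul, map_multiset_prod, map_multiset_prod,
      Multiset.map_map, Multiset.map_map]
    refine Multiset.prod_eq_one fun x hx => ?_
    obtain ⟨c, -, rfl⟩ := Multiset.mem_map.1 hx
    simpa using h1 c
  obtain ⟨π, hπ⟩ := v.exists_unif
  have hπ0 : π ≠ 0 := fun e => by simp [e] at hπ; exact exp_ne_zero hπ.symm
  have hπ1 : v.val π < 1 := by rw [hπ, ← exp_zero, exp_lt_exp]; omega
  have hA := alg_of_transc hK ht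
  obtain ⟨s, hs, r, hr, e⟩ := (hA.isAlgebraic π).exists_nonzero_eq_adjoin_mul
    (mem_nonZeroDivisors_of_ne_zero hπ0)
  have hle : Algebra.adjoin k {h} ≤ ints v := Algebra.adjoin_le (Set.singleton_subset_iff.2 hh)
  have hs1 : v.val s ≤ 1 := by
    clear e
    induction hs using Algebra.adjoin_induction with
    | mem x hx => rw [Set.mem_singleton_iff.1 hx]; exact hπ1.le
    | algebraMap a => exact hle a.2
    | add x y _ _ hx hy => exact (ints v).add_mem hx hy
    | mul x y _ _ hx hy => exact (ints v).mul_mem hx hy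
  obtain ⟨p, hp⟩ : (r : K) ∈ (aeval h : k[X] →ₐ[k] K).range := by
    rw [← Algebra.adjoin_singleton_eq_range_aeval]; exact r.2
  have hp' : aeval h p = (r : K) := hp
  have hp0 : p ≠ 0 := fun e0 => hr (Subtype.ext (by rw [← hp', e0, map_zero]; rfl))
  have h3 := h2 p hp0
  have e' : π * s = (r : K) := e
  rw [hp', ← e', map_mul] at h3
  exact absurd h3 ((mul_le_of_le_one_right' hs1).trans_lt hπ1).ne

/-- A nonconstant function has a pole. -/
theorem pole [IsAlgClosed k] (hD : StmtDVR) (hK : IsFF k K) {h : K}
    (hh : h ∉ Set.range (algebraMap k K)) : ∃ v : Place k K, 1 < v.val h := by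
  have h1 : h ∉ (integralClosure k K).toSubring := fun H => hh (mem_range_of_integral H)
  obtain ⟨O, hO, hx⟩ := Subring.exists_le_valuationSubring_of_isIntegrallyClosedIn h1
  obtain ⟨v, hv⟩ := hD k K hK O (fun c => hO ((integralClosure k K).algebraMap_mem c))
    (fun e => hx (e ▸ ValuationSubring.mem_top h))
  exact ⟨v, not_le.1 fun H => hx ((hv h).2 H)⟩

theorem LL_mono {D D' : Dv k K} (h : D ≤ D') : LL D ≤ LL D' := fun _ hx v =>
  (hx v).trans (exp_le_exp.2 (h v))

theorem lt_exp_succ {a : ℤᵐ⁰} {n : ℤ} (h : a < exp (n + 1)) : a ≤ exp n := by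
  by_cases h0 : a = 0
  · simp [h0]
  · rw [← exp_log h0, exp_lt_exp] at h
    rw [← exp_log h0, exp_le_exp]; omega

/-- One more pole enlarges the space by at most one generator. -/
theorem step_le {v : Place k K} (hv : v.Res) (D : Dv k K) :
    ∃ y : K, LL (D + single v 1) ≤ LL D ⊔ Submodule.span k {y} := by
  by_cases H : LL (D + single v 1) ≤ LL D
  · exact ⟨0, H.trans le_sup_left⟩
  obtain ⟨y, hy, hy'⟩ := SetLike.not_le_iff_exists.1 H
  have hw : ∀ x ∈ LL (D + single v 1), ∀ w, w ≠ v → w.val x ≤ exp (D w) := fun x hx w hw => by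
    simpa [single_eq_of_ne hw] using hx w
  have hvv : ∀ x ∈ LL (D + single v 1), v.val x ≤ exp (D v + 1) := fun x hx => by
    simpa using hx v
  have hmem : ∀ x ∈ LL (D + single v 1), v.val x < exp (D v + 1) → x ∈ LL D := fun x hx h w => by
    by_cases e : w = v
    · rw [e]; exact lt_exp_succ h
    · exact hw x hx w e
  have hyv : v.val y = exp (D v + 1) :=
    le_antisymm (hvv y hy) (not_lt.1 fun h => hy' (hmem y hy h))
  have hy0 : y ≠ 0 := fun e => hy' (e ▸ (LL D).zero_mem)
  have hpos : 0 < v.val y := zero_lt_iff.2 (v.val_ne hy0)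
  refine ⟨y, fun x hx => ?_⟩
  obtain ⟨c, hc⟩ := hv (x / y) (by rw [map_div₀, div_le_one₀ hpos, hyv]; exact hvv x hx)
  have h1 : x - c • y ∈ LL D := by
    refine hmem _ (Submodule.sub_mem _ hx (Submodule.smul_mem _ c hy)) ?_
    rw [show x - c • y = (x / y - algebraMap k K c) * y by
      rw [Algebra.smul_def]; field_simp, map_mul, ← hyv]
    exact mul_lt_of_lt_one_left hpos hc
  rw [show x = (x - c • y) + c • y by abel]
  exact Submodule.add_mem_sup h1 (Submodule.smul_mem _ c (Submodule.mem_span_singleton_self y))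

theorem step {v : Place k K} (hv : v.Res) (D : Dv k K) [FiniteDimensional k (LL D)] :
    FiniteDimensional k (LL (D + single v 1)) ∧
      finrank k (LL (D + single v 1)) ≤ finrank k (LL D) + 1 := by
  obtain ⟨y, hy⟩ := step_le hv D
  refine ⟨Submodule.finiteDimensional_of_le hy, (Submodule.finrank_mono hy).trans
    ((Submodule.finrank_add_le_finrank_add_finrank _ _).trans ?_)⟩
  have := finrank_span_le_card (R := k) ({y} : Set K)
  simpa using this

theorem LL_zero [IsAlgClosed k] (hD : StmtDVR) (hK : IsFF k K) {h : K}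
    (hh : h ∈ LL (0 : Dv k K)) : h ∈ Set.range (algebraMap k K) := by
  by_contra H
  obtain ⟨v, hv⟩ := pole hD hK H
  exact absurd (by simpa using hh v) hv.not_ge

theorem LL_fin [IsAlgClosed k] (hD : StmtDVR) (hK : IsFF k K) (D : Dv k K) :
    FiniteDimensional k (LL D) := by
  induction D using Finsupp.induction with
  | zero =>
    refine Submodule.finiteDimensional_of_le (S₂ := Submodule.span k {(1 : K)}) fun h hh => ?_
    obtain ⟨c, rfl⟩ := LL_zero hD hK hh
    exact Submodule.mem_span_singleton.2 ⟨c, (Algebra.algebraMap_eq_smul_one c).symm⟩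
  | single_add v n D _ _ ih =>
    have h1 : ∀ m : ℕ, FiniteDimensional k (LL (D + single v (m : ℤ))) := fun m => by
      induction m with
      | zero => rwa [Nat.cast_zero, single_zero, add_zero]
      | succ m ih' =>
        rw [Nat.cast_succ, single_add, ← add_assoc]
        exact (step (res hK v) _).1
    have := h1 n.toNat
    refine Submodule.finiteDimensional_of_le (S₂ := LL (D + single v (n.toNat : ℤ)))
      (LL_mono ?_)
    rw [add_comm]
    exact add_le_add_right (single_le_single.2 (Int.self_le_toNat n)) D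

theorem infinite_place [IsAlgClosed k] (hD : StmtDVR) (hK : IsFF k K) : Infinite (Place k K) := by
  obtain ⟨t, ht, -⟩ := id hK
  have h1 : ∀ c : k, ∃ v : Place k K, v.val (t - algebraMap k K c) < 1 := fun c => by
    have h2 : (t - algebraMap k K c)⁻¹ ∉ Set.range (algebraMap k K) := by
      rintro ⟨a, ha⟩
      refine ht ?_
      rw [show t = algebraMap k K (a⁻¹ + c) by rw [map_add, map_inv₀, ha, inv_inv]; ring]
      exact isAlgebraic_algebraMap _
    obtain ⟨v, hv⟩ := pole hD hK h2
    rw [map_inv₀] at hv
    exact ⟨v, (one_lt_inv_iff₀.1 hv).2⟩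
  choose f hf using h1
  exact Infinite.of_injective f fun a b e => (f b).const_eq (e ▸ hf a) (hf b)

theorem ll (hD : StmtDVR) : StmtLL := fun _ _ _ _ _ _ hK =>
  ⟨LL_fin hD hK, fun D v => have := LL_fin hD hK D; (step (res hK v) D).2,
    fun _ hh => LL_zero hD hK hh, infinite_place hD hK⟩

end Pool.Agent.MP_cce4c9_lc.H51
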