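import Pool.Agent.MP_cce4c9_lc.H87.SpecR

/-!
The data of the first system satisfy the requirements of the search.
-/

set_option autoImplicit false

open Polynomial Finset

namespace Pool.Agent.MP_cce4c9_lc.H51

open H87 H87.Cv

namespace SK1

variable {k : Type} [Field k] {v : ℕ}

/-- `P` holds in a Zariski neighbourhood of `a`. -/
def Op (a : Fin v → k) (P : (Fin v → k) → Prop) : Prop :=
  ∃ h : MvPolynomial (Fin v) k, MvPolynomial.eval a h ≠ 0 ∧ ∀ b, MvPolynomial.eval b h ≠ 0 → P b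

theorem Op.mono {a : Fin v → k} {P Q : (Fin v → k) → Prop} (h : Op a P) (H : ∀ b, P b → Q b) :
    Op a Q := by
  obtain ⟨g, h1, h2⟩ := h
  exact ⟨g, h1, fun b hb => H b (h2 b hb)⟩

theorem Op.and {a : Fin v → k} {P Q : (Fin v → k) → Prop} (h : Op a P) (h' : Op a Q) :
    Op a fun b => P b ∧ Q b := by
  obtain ⟨g, h1, h2⟩ := h
  obtain ⟨g', h1', h2'⟩ := h'
  refine ⟨g * g', by simp [h1, h1'], fun b hb => ?_⟩
  rw [map_mul] at hb
  exact ⟨h2 b (left_ne_zero_of_mul hb), h2' b (right_ne_zero_of_mul hb)⟩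

theorem Op.triv {a : Fin v → k} {P : (Fin v → k) → Prop} (h : ∀ b, P b) : Op a P :=
  ⟨1, by simp, fun b _ => h b⟩

theorem Op.all {a : Fin v → k} {P : ℕ → (Fin v → k) → Prop} (n : ℕ) (h : ∀ j < n, Op a (P j)) :
    Op a fun b => ∀ j < n, P j b := by
  induction n with
  | zero => exact Op.triv fun _ _ h => absurd h (Nat.not_lt_zero _)
  | succ n ih =>
    refine ((ih fun j hj => h j (by omega)).and (h n (by omega))).mono fun b hb j hj => ?_
    rcases Nat.lt_succ_iff_lt_or_eq.1 hj with e | rfl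
    · exact hb.1 j e
    · exact hb.2

theorem eval_ex (b : Fin v → k) (i : ℕ) :
    MvPolynomial.eval b (ex MvPolynomial.X i) = ex b i := by
  unfold ex
  split_ifs <;> simp

theorem op_ne {a : Fin v → k} {i j : ℕ} (h : ex a i ≠ ex a j) :
    Op a fun b => ex b i ≠ ex b j :=
  ⟨ex MvPolynomial.X i - ex MvPolynomial.X j, by simpa [eval_ex, sub_eq_zero] using h,
    fun b hb => by simpa [eval_ex, sub_eq_zero] using hb⟩

theorem op_dis {a : Fin v → k} {d m : ℕ} {μ : ℕ → ℕ} (h : Dis d m μ (ex a)) :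
    Op a fun b => Dis d m μ (ex b) := by
  refine Op.all _ fun j hj => Op.all _ fun j' hj' => ?_
  by_cases h1 : μ j = 0
  · exact Op.triv fun _ h => absurd h1 h
  by_cases h2 : μ j' = 0
  · exact Op.triv fun _ _ h => absurd h2 h
  obtain ⟨i, hi, e⟩ := h j hj j' hj' h1 h2
  exact (op_ne e).mono fun b hb _ _ => ⟨i, hi, hb⟩

theorem op_crP (hN : StmtNAT) {a : Fin v → k} {f : k[X]} {d m l : ℕ} {T : List (ℕ × ℕ)}
    (h : crP f d m l (ex a) T 0 0 ≠ 0) : Op a fun b => crP f d m l (ex b) T 0 0 ≠ 0 := by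
  have key : ∀ b : Fin v → k, MvPolynomial.eval b (crP (f.map MvPolynomial.C) d m l
      (ex MvPolynomial.X) T 0 0) = crP f d m l (ex b) T 0 0 := fun b => by
    have e : (MvPolynomial.eval b).comp MvPolynomial.C = RingHom.id k := by ext; simp
    rw [(hN.1 _ _ (MvPolynomial.eval b) _ d m l _).2.1, Polynomial.map_map, e, Polynomial.map_id,
      funext (eval_ex b)]
  exact ⟨_, by rwa [key], fun b hb => by rwa [key] at hb⟩

theorem vanP_smul {f : k[X]} {d m l : ℕ} {b : ℕ → k} {c c' : ℕ → ℕ → k} {z : k}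
    (h : ∀ J < d ^ m, ∀ e, e + ds d m J ≤ l * N0 d m → c' e J = z * c e J) (ρ : ℕ × ℕ) :
    vanP f d m l b c' ρ = z * vanP f d m l b c ρ := by
  simp only [vanP, Finset.mul_sum]
  refine sum_congr rfl fun J hJ => sum_congr rfl fun e he => ?_
  rw [h J (mem_range.1 hJ) e (by have := mem_range.1 he; omega), mul_assoc]

theorem mem_rowsL {d m l : ℕ} {μ : List ℕ} {ρ : ℕ × ℕ} :
    ρ ∈ rowsL d m l μ ↔ ρ.1 < mm d m ∧ ρ.2 < l * min (μ.getD ρ.1 0) (mm d m) := by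
  simp only [rowsL, List.mem_flatMap, List.mem_range, List.mem_map]
  exact ⟨fun ⟨j, hj, r, hr, e⟩ => e ▸ ⟨hj, hr⟩, fun ⟨h1, h2⟩ => ⟨ρ.1, h1, ρ.2, h2, rfl⟩⟩

theorem sum_getD (μ : List ℕ) : ∑ j ∈ range μ.length, μ.getD j 0 = μ.sum := by
  rw [← sum_map_range]
  congr 1
  apply List.ext_getElem <;> simp +contextual

theorem mem_pats {d m l : ℕ} {pat : Pat} : pat ∈ pats d m l ↔
    (pat.1 ∈ tuples (List.range (mm d m + 1)) (mm d m) ∧ pat.1.sum = mm d m) ∧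
    pat.2.1 ∈ tuples [0, 1] (mm d m) ∧
    pat.2.2 ∈ tuples ((mm d m, 0) :: rowsL d m l pat.1) (g0 d m) := by
  simp only [pats, List.mem_flatMap, List.mem_map, List.mem_filter, beq_iff_eq]
  exact ⟨fun ⟨μ, h1, fx, h2, del, h3, e⟩ => e ▸ ⟨h1, h2, h3⟩,
    fun ⟨h1, h2, h3⟩ => ⟨_, h1, _, h2, _, h3, rfl⟩⟩

theorem getD_map_range (g : ℕ → ℕ) {n j : ℕ} (h : j < n) :
    ((List.range n).map g).getD j 0 = g j := by
  simp [List.getD_eq_getElem?_getD, h]

end SK1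

open SK1 in
theorem sk1 : StmtNAT → StmtMINOR → StmtSYS1 → StmtDAT1 → StmtSOLVE → StmtSK1 := by
  intro hN hM hS hD hV F k _ _ _ D π ι fl d m l _ f C σ hI hF sta ste pa so is rl tst
  have l0 : 0 < l := (Fact.out : l.Prime).pos
  have m0 := C.hm
  have d2 := C.hd
  have SV := hV F k D π ι (nV d m) (dM d m l) ((pats d m l).map (sys1 D fl d m l))
    (Nat.succ_pos _)
  refine ⟨SV.1, rl.fn, fun B φ b pat hp pt h => ?_, fun x => ?_, rl.fr _ σ hF, tst⟩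
  · obtain ⟨⟨h1, h2⟩, -⟩ := mem_pats.1 hp
    have h3 : ∑ j ∈ range (mm d m), pat.1.getD j 0 = mm d m := by
      have := sum_getD pat.1
      rwa [(mem_tuples.1 h1).1, h2] at this
    obtain ⟨u, e, g, -⟩ := so _ _ _ h3 ((hD F k D π ι fl d m l f pat B φ b hI l0 m0 d2 pt
      fun j hj => (single_le_sum (f := fun j => pat.1.getD j 0) (fun _ _ => Nat.zero_le _)
        (mem_range.2 hj)).trans h3.le).1.1 h)
    exact rl.snd u _ e g
  obtain ⟨u₀, g₀, e₀⟩ := sta x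
  obtain ⟨u, g, w, e⟩ := ste u₀ g₀
  obtain ⟨μ₀, fx₀, b₀, c, pt₀, sol₀, fix₀, un₀, hu⟩ := pa u.1 g w
  have rp : C.Rp l c x := ⟨u, hu, g, e.trans e₀⟩
  obtain ⟨μ, hμ⟩ : ∃ μ, μ = (List.range (mm d m)).map μ₀ := ⟨_, rfl⟩
  obtain ⟨fx, hfx⟩ : ∃ fx, fx = (List.range (mm d m)).map fx₀ := ⟨_, rfl⟩
  obtain ⟨a, ha⟩ : ∃ a : Fin (nV d m) → k, a = fun i : Fin (nV d m) => b₀ i := ⟨_, rfl⟩
  obtain ⟨s1, s2, s3, s4⟩ := hN.2 k f d m l b₀ (ex a) μ₀ (μ.getD · 0) fx₀ (fx.getD · 0) c c m0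
    (by omega) (fun i hi => by simp [ex, hi, ha])
    (fun j hj => by rw [hμ, hfx, getD_map_range _ hj, getD_map_range _ hj]; exact ⟨rfl, rfl⟩)
    fun _ _ _ _ => rfl
  have sol := s1 sol₀
  have pt := s4 pt₀
  have le : ∀ j < mm d m, μ.getD j 0 ≤ mm d m := fun j hj =>
    (single_le_sum (f := fun j => μ.getD j 0) (fun _ _ => Nat.zero_le _)
      (mem_range.2 hj)).trans pt.1.le
  have ml : μ.length = mm d m := by simp [hμ]
  have fl' : fx.length = mm d m := by simp [hfx]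
  obtain ⟨del, hdel, c0, hun, hc⟩ := hM k f d m l μ fx (ex a) l0 m0 d2 pt (s3 un₀)
  replace hc := hc c sol.2.2.1 sol.2.2.2
  have hp : (μ, fx, del) ∈ pats d m l := by
    refine mem_pats.2 ⟨⟨mem_tuples.2 ⟨ml, fun y hy => ?_⟩, ?_⟩, mem_tuples.2 ⟨fl', fun y hy => ?_⟩,
      hdel⟩
    · obtain ⟨j, hj, rfl⟩ := List.getElem_of_mem hy
      have := le j (ml ▸ hj)
      rw [List.getD_eq_getElem _ _ hj] at this
      exact List.mem_range.2 (Nat.lt_succ_of_le this)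
    · rw [← sum_getD, ml]
      exact pt.1
    · obtain ⟨j, hj, rfl⟩ := List.getElem_of_mem hy
      have := (pt.2 j (fl' ▸ hj)).1
      simp only [List.getD_eq_getElem _ _ hj] at this
      simp only [List.mem_cons, List.not_mem_nil, or_false]
      omega
  refine ⟨(μ, fx, del), hp, a, SV.2 _ (List.mem_map_of_mem hp) a ⟨?_, ?_⟩, fun B φ b pB hb => ?_⟩
  · refine (hS F k D π ι fl d m l f _ a hI l0 m0 d2).2 ⟨sol.1, s2 fix₀, fun ρ hρ => ?_⟩
    obtain ⟨h1, h2⟩ := mem_rowsL.1 hρ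
    rw [vanP_smul hc, sol.2.2.2 ρ.1 h1 ρ.2
      (h2.trans_le (Nat.mul_le_mul_left l (min_le_left _ _))), mul_zero]
  · obtain ⟨h, h1, h2⟩ := (op_dis sol.2.1).and (op_crP hN c0)
    obtain ⟨Z, hZ⟩ := is _ _ pt
    refine ⟨h, h1, Z, fun b hb hh i => ?_⟩
    obtain ⟨t1, t2, t3⟩ := (hS F k D π ι fl d m l f _ b hI l0 m0 d2).1 hb
    obtain ⟨t4, t5⟩ := h2 b hh
    have := hZ (ex b) (fun e J => (crP f d m l (ex b) (selR d m l (μ, fx, del)) 0 0)⁻¹ *
      crP f d m l (ex b) (selR d m l (μ, fx, del)) e J) ⟨t1, t4, inv_mul_cancel₀ t5,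
        fun j hj r hr => by
          rw [vanP_smul fun _ _ _ _ => rfl, t3 (j, r) (mem_rowsL.2
            ⟨hj, by rwa [min_eq_left (le j hj)]⟩), mul_zero]⟩ t2 (hun _ t5) i i.2
    simpa [ex] using this
  · obtain ⟨t1, t2⟩ := hD F k D π ι fl d m l f (μ, fx, del) B φ b hI l0 m0 d2 pB le
    rw [funext hb] at t1 t2
    have t3 : ∀ J < d ^ m, ∀ e, e + ds d m J ≤ l * N0 d m →
        c e J = tb φ (dat1 fl d m l B (μ, fx, del) b).2 e J := fun J hJ e he => by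
      rw [t2 c0 J hJ e (by omega), hc J hJ e he, mul_div_cancel_left₀ _ c0]
    exact ⟨t1.2 ((hN.2 k f d m l _ _ _ _ (fx.getD · 0) _ _ _ m0 (by omega) (fun _ _ => rfl)
      (fun _ _ => ⟨rfl, rfl⟩) t3).1 sol), rl.cg _ _ _ t3 rp⟩

end Pool.Agent.MP_cce4c9_lc.H51
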